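import Pool.Agent.R85.CliqueSample3

/-!
Supersaturation for clique counts in graphs with a fixed number of edges (question Q1 of
MP_79ff05_co), in full: for all `r ≥ s ≥ 3`.
-/

set_option autoImplicit false

namespace Pool.Agent.Results.MP_79ff05_co.CliqueSupersat

open Finset SimpleGraph Pool.Agent.R85.CS

theorem hc_pull_le {V W : Type} [Fintype V] [Fintype W] (G : SimpleGraph V) (f : W → V)
    (hf : Function.Injective f) (k : ℕ) : hc (pull G f) k ≤ hc G k := by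
  classical
  rw [hc, hc]
  apply card_le_card_of_injOn (fun g => f ∘ g)
  · intro g hg
    rw [mem_coe, mem_filter] at hg ⊢
    exact ⟨mem_univ _, hg.2⟩
  · intro g _ g' _ h
    funext i
    exact hf (congrFun h i)

theorem hc_le_pow {W : Type} [Fintype W] (G : SimpleGraph W) (k : ℕ) :
    hc G k ≤ Fintype.card W ^ k := by
  classical
  rw [hc]
  refine (card_le_univ _).trans ?_
  rw [Fintype.card_fun, Fintype.card_fin]

theorem aux10 (T q ρ ξ D : ℝ) (h1 : T * (1 - q) ≤ D) (hρ0 : 0 ≤ ρ) (hρ1 : ρ ≤ 1)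
    (hT : 0 ≤ T) (hq : 0 ≤ q) : T * (ρ - q - ξ) ≤ D * ρ - T * ξ := by
  have e1 := mul_le_mul_of_nonneg_right h1 hρ0
  have e2 := mul_nonneg (mul_nonneg hT hq) (sub_nonneg.2 hρ1)
  linarith only [e1, e2]

theorem core (r s : ℕ) (hs : 3 ≤ s) (hsr : s ≤ r) (ε : ℝ) (hε : 0 < ε) (hε1 : ε ≤ 1) :
    ∃ δ : ℝ, 0 < δ ∧ ∃ m₀ : ℕ, ∀ (n : ℕ) (G : SimpleGraph (Fin n)), m₀ ≤ G.edgeSet.ncard →
      (∀ (n' : ℕ) (G' : SimpleGraph (Fin n')), G'.edgeSet.ncard = G.edgeSet.ncard →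
        G'.CliqueFree (r + 1) →
        ({S : Finset (Fin n') | G'.IsNClique s S}.ncard : ℝ) +
          ε * √(G.edgeSet.ncard : ℝ) ^ s ≤ ({S : Finset (Fin n) | G.IsNClique s S}.ncard : ℝ)) →
      δ * √(G.edgeSet.ncard : ℝ) ^ (r + 1) ≤
        ({S : Finset (Fin n) | G.IsNClique (r + 1) S}.ncard : ℝ) := by
  classical
  have hs0 : (3 : ℝ) ≤ s := by exact_mod_cast hs
  obtain ⟨η, hη⟩ : ∃ η : ℝ, η = ε / 16 := ⟨_, rfl⟩
  have hη0 : 0 < η := by rw [hη]; positivity
  have hη1 : η ≤ 1 := by rw [hη]; linarith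
  obtain ⟨K, hK⟩ : ∃ K : ℝ, K = (2 / η) ^ s := ⟨_, rfl⟩
  have hK1 : 1 ≤ K := by
    rw [hK]
    apply one_le_pow₀
    rw [le_div_iff₀ hη0]
    linarith
  have hK0 : 0 < K := by linarith
  obtain ⟨θ, hθ⟩ : ∃ θ : ℝ, θ = ε / (8 * s * K) := ⟨_, rfl⟩
  have hθ0 : 0 < θ := by rw [hθ]; positivity
  have hKθ : K * s * θ = ε / 8 := by rw [hθ]; field_simp
  have hθ1 : θ ≤ 1 / 8 := by
    rw [hθ, div_le_iff₀ (by positivity)]
    have h3 : 3 * 1 ≤ (s : ℝ) * K := mul_le_mul hs0 hK1 (by norm_num) (by linarith)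
    linarith only [h3, hε1]
  obtain ⟨γ, hγ⟩ : ∃ γ : ℝ, γ = η ^ 2 * θ := ⟨_, rfl⟩
  have hγ0 : 0 < γ := by rw [hγ]; positivity
  obtain ⟨ξ, hξ⟩ : ∃ ξ : ℝ, ξ = ε / (8 * K) := ⟨_, rfl⟩
  have hξ0 : 0 < ξ := by rw [hξ]; positivity
  have hKξ : K * ξ = ε / 8 := by rw [hξ]; field_simp
  have hξ1 : ξ < 1 := by
    rw [hξ, div_lt_iff₀ (by positivity)]
    linarith only [hK1, hε1]
  obtain ⟨t, ht⟩ := exists_nat_gt (12 / (γ ^ 2 * ξ) + 16 * K * s ^ 2 / ε + s)
  have hp1 : 0 < 12 / (γ ^ 2 * ξ) := by positivity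
  have hp2 : 0 < 16 * K * s ^ 2 / ε := by positivity
  have ht0 : (0 : ℝ) < t := by linarith
  have ht1 : 1 ≤ t := by
    have : (0 : ℝ) < t := ht0
    exact_mod_cast this
  have hts : (s : ℝ) < t := by linarith
  have htsN : s < t := by exact_mod_cast hts
  have hta : 6 / (γ ^ 2 * t) ≤ ξ / 2 := by
    have h1 : 12 / (γ ^ 2 * ξ) < t := by linarith
    rw [div_lt_iff₀ (by positivity)] at h1
    rw [div_le_iff₀ (by positivity)]
    linarith only [h1]
  have htb : K * (s ^ 2 / t) ≤ ε / 16 := by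
    have h1 : 16 * K * s ^ 2 / ε < t := by linarith
    rw [div_lt_iff₀ hε] at h1
    rw [← mul_div_assoc, div_le_iff₀ ht0]
    linarith only [h1]
  have hfac : (0 : ℝ) < ((r + 1).factorial : ℝ) := by exact_mod_cast Nat.factorial_pos _
  obtain ⟨δ, hδ⟩ : ∃ δ : ℝ, δ = ξ / 2 * (ε / 2) ^ (r + 1) / ((t : ℝ) ^ (r + 1) * (r + 1).factorial) :=
    ⟨_, rfl⟩
  have hδ0 : 0 < δ := by rw [hδ]; positivity
  obtain ⟨m₀, hm₀⟩ := exists_nat_gt ((32 * K * s * t / ε ^ 2) ^ 2)
  refine ⟨δ, hδ0, m₀, ?_⟩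
  intro n G hm hyp
  by_contra hcon
  push Not at hcon
  -- M = sqrt m
  have hmR : (m₀ : ℝ) ≤ (G.edgeSet.ncard : ℝ) := by exact_mod_cast hm
  obtain ⟨M, hM⟩ : ∃ M : ℝ, M = √(G.edgeSet.ncard : ℝ) := ⟨_, rfl⟩
  rw [← hM] at hyp hcon
  have hMsq : M ^ 2 = (G.edgeSet.ncard : ℝ) := by rw [hM]; exact Real.sq_sqrt (by positivity)
  have hMbig : 32 * K * s * t / ε ^ 2 < M := by
    rw [hM]
    apply Real.lt_sqrt_of_sq_lt
    linarith
  have hMp : 0 < 32 * K * s * t / ε ^ 2 := by positivity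
  have hM0 : 0 < M := by linarith
  have hMs : 0 < M ^ s := by positivity
  have hzcG : (zc G : ℝ) = 2 * M ^ 2 := by rw [zc_eq, hMsq]; push_cast; ring
  -- high-degree vertices
  set H : Finset (Fin n) := univ.filter (fun v => η * M < (G.degree v : ℝ)) with hH
  have hlow : ∀ v, v ∉ H → (G.degree v : ℝ) ≤ η * M := by
    intro v hv
    rw [hH, mem_filter] at hv
    push Not at hv
    exact hv (mem_univ _)
  obtain ⟨N, hN⟩ : ∃ N : ℝ, N = (#H : ℝ) := ⟨_, rfl⟩
  have hN0 : 0 ≤ N := by rw [hN]; positivity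
  have hNup : N ≤ 2 / η * M := by
    have h1 : N * (η * M) ≤ ∑ v ∈ H, (G.degree v : ℝ) := by
      rw [hN, ← nsmul_eq_mul, ← sum_const]
      apply sum_le_sum
      intro v hv
      rw [hH, mem_filter] at hv
      exact hv.2.le
    have h2 : ∑ v ∈ H, (G.degree v : ℝ) ≤ ∑ v, (G.degree v : ℝ) :=
      sum_le_sum_of_subset_of_nonneg (subset_univ _) (fun _ _ _ => by positivity)
    have h3 : ∑ v, (G.degree v : ℝ) = 2 * M ^ 2 := by
      have h4 := G.sum_degrees_eq_twice_card_edges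
      have h5 : G.edgeSet.ncard = #G.edgeFinset := by
        rw [← coe_edgeFinset, Set.ncard_coe_finset]
      rw [hMsq, h5]
      exact_mod_cast h4
    have h6 : N * η * M ≤ 2 * M * M := by linarith only [h1, h2, h3]
    have h7 : N * η ≤ 2 * M := le_of_mul_le_mul_right h6 hM0
    rw [div_mul_eq_mul_div, le_div_iff₀ hη0]
    exact h7
  have hNs : N ^ s ≤ K * M ^ s := by
    rw [hK, ← mul_pow]
    exact pow_le_pow_left₀ hN0 hNup s
  set G₁ : SimpleGraph H := pull G (Subtype.val : H → Fin n) with hG₁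
  have hlowc : (hc G s : ℝ) ≤ hc G₁ s + s / 8 * ε * M ^ s := by
    have h1 := low_cliques G H s hs (η * M) (by positivity) hlow
    refine h1.trans ?_
    rw [hzcG]
    have h2 : (η * M) ^ (s - 2) ≤ η * M ^ (s - 2) := by
      rw [mul_pow]
      apply mul_le_mul_of_nonneg_right _ (by positivity)
      calc η ^ (s - 2) ≤ η ^ 1 := pow_le_pow_of_le_one hη0.le hη1 (by omega)
        _ = η := pow_one η
    have h3 : M ^ 2 * M ^ (s - 2) = M ^ s := by
      rw [← pow_add]; congr 1; omega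
    have h4 : (s : ℝ) * (2 * M ^ 2 * (η * M) ^ (s - 2)) ≤ s * (2 * M ^ 2 * (η * M ^ (s - 2))) := by
      apply mul_le_mul_of_nonneg_left _ (by positivity)
      exact mul_le_mul_of_nonneg_left h2 (by positivity)
    have h5 : (s : ℝ) * (2 * M ^ 2 * (η * M ^ (s - 2))) = s / 8 * ε * M ^ s := by
      rw [← h3, hη]; ring
    linarith
  have hsfac : (s : ℝ) ≤ (s.factorial : ℝ) := by exact_mod_cast Nat.self_le_factorial s
  have hhcG : (hc G s : ℝ) = (s.factorial : ℝ) *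
      ({S : Finset (Fin n) | G.IsNClique s S}.ncard : ℝ) := by
    rw [hc_eq]; push_cast; rfl
  -- the hypothesis in terms of labelled cliques
  have hyp' : ∀ (n' : ℕ) (G' : SimpleGraph (Fin n')), G'.edgeSet.ncard = G.edgeSet.ncard →
      G'.CliqueFree (r + 1) → (hc G' s : ℝ) + s.factorial * (ε * M ^ s) ≤ hc G s := by
    intro n' G' h1 h2
    have h3 := hyp n' G' h1 h2
    rw [hhcG, hc_eq]
    push_cast
    rw [← mul_add]
    exact mul_le_mul_of_nonneg_left h3 (by positivity)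
  -- lower bound for N
  have hG₁low : ε / 2 * M ^ s ≤ hc G₁ s := by
    obtain ⟨n', G', h1, h2, _⟩ := exists_padded (⊥ : SimpleGraph (Fin 0)) G.edgeSet.ncard r s
      (by omega) (by rw [zc_eq]; simp) (by
        rw [hc_eq, Nat.mul_eq_zero]
        right
        rw [Set.ncard_eq_zero (Set.toFinite _), Set.eq_empty_iff_forall_notMem]
        intro S hS
        have h3 := hS.2
        have h4 : #S ≤ 0 := by
          have := card_le_univ S
          simpa using this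
        omega)
    have h5 := hyp' n' G' h1 h2
    have h6 : (0 : ℝ) ≤ hc G' s := by positivity
    have h7 : 0 ≤ ε * M ^ s := by positivity
    have a1 := mul_le_mul_of_nonneg_right hsfac h7
    have a2 := mul_le_mul_of_nonneg_right hs0 h7
    linarith only [h5, h6, h7, a1, a2, hlowc]
  have hG₁up : (hc G₁ s : ℝ) ≤ N ^ s := by
    have h1 := hc_le_pow G₁ s
    rw [Fintype.card_coe] at h1
    rw [hN]
    exact_mod_cast h1
  have hNlow : ε / 2 * M ≤ N := by
    by_contra h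
    push Not at h
    have h1 : N ^ s < (ε / 2 * M) ^ s := pow_lt_pow_left₀ h hN0 (by omega)
    have h2 : (ε / 2 * M) ^ s ≤ ε / 2 * M ^ s := by
      rw [mul_pow]
      apply mul_le_mul_of_nonneg_right _ hMs.le
      calc (ε / 2) ^ s ≤ (ε / 2) ^ 1 := pow_le_pow_of_le_one (by positivity) (by linarith) (by omega)
        _ = ε / 2 := pow_one _
    linarith
  have hNpos : 0 < N := lt_of_lt_of_le (by positivity) hNlow
  have hHne : Nonempty H := by
    have h1 : 0 < #H := by rw [hN] at hNpos; exact_mod_cast hNpos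
    obtain ⟨v, hv⟩ := card_pos.mp h1
    exact ⟨⟨v, hv⟩⟩
  have hcardH : (Fintype.card H : ℝ) = N := by rw [Fintype.card_coe, hN]
  -- sampling
  have hbad : 6 / (γ ^ 2 * t) +
      (t : ℝ) ^ (r + 1) * (hc G₁ (r + 1) / (Fintype.card H : ℝ) ^ (r + 1)) ≤ ξ := by
    rw [hcardH]
    have h1 : (hc G₁ (r + 1) : ℝ) ≤ (r + 1).factorial * (δ * M ^ (r + 1)) := by
      have h2 : (hc G₁ (r + 1) : ℝ) ≤ hc G (r + 1) := by
        exact_mod_cast hc_pull_le G _ Subtype.val_injective (r + 1)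
      rw [hc_eq G (r + 1)] at h2
      push_cast at h2
      exact h2.trans (mul_le_mul_of_nonneg_left hcon.le (by positivity))
    have h3 : (ε / 2 * M) ^ (r + 1) ≤ N ^ (r + 1) := pow_le_pow_left₀ (by positivity) hNlow _
    have h4 : (t : ℝ) ^ (r + 1) * (hc G₁ (r + 1) / N ^ (r + 1)) ≤ ξ / 2 := by
      rw [← mul_div_assoc, div_le_iff₀ (by positivity)]
      calc (t : ℝ) ^ (r + 1) * hc G₁ (r + 1)
          ≤ (t : ℝ) ^ (r + 1) * ((r + 1).factorial * (δ * M ^ (r + 1))) :=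
            mul_le_mul_of_nonneg_left h1 (by positivity)
        _ = ξ / 2 * (ε / 2 * M) ^ (r + 1) := by
            rw [hδ, mul_pow]
            field_simp
        _ ≤ ξ / 2 * N ^ (r + 1) := mul_le_mul_of_nonneg_left h3 (by positivity)
    linarith
  obtain ⟨f, hf1, hf2, hf3⟩ := sample G₁ t s r γ ξ ht1 hγ0 hbad hξ1
  rw [hcardH] at hf2 hf3
  set P := pull G₁ f with hP
  obtain ⟨b, hb⟩ : ∃ b : ℕ, b = ⌊(1 - θ) * N / t⌋₊ := ⟨_, rfl⟩
  have hbup : (b : ℝ) ≤ (1 - θ) * N / t := by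
    rw [hb]
    apply Nat.floor_le
    apply div_nonneg _ ht0.le
    apply mul_nonneg _ hNpos.le
    linarith
  have hblow : (1 - θ) * N - t ≤ b * t := by
    have h1 := Nat.lt_floor_add_one ((1 - θ) * N / t)
    rw [← hb, div_lt_iff₀ ht0] at h1
    linarith
  set B := pull P (Prod.fst : Fin t × Fin b → Fin t) with hB
  have hzG₁ : (zc G₁ : ℝ) ≤ 2 * M ^ 2 := by
    rw [← hzcG]
    have : zc G₁ ≤ zc G := by
      rw [zc, zc]
      apply card_le_card_of_injOn (fun p => (p.1.1, p.2.1))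
      · intro p hp
        rw [mem_coe, mem_filter] at hp ⊢
        exact ⟨mem_univ _, hp.2⟩
      · intro p _ q _ h
        rw [Prod.mk.injEq] at h
        exact Prod.ext (Subtype.ext h.1) (Subtype.ext h.2)
    exact_mod_cast this
  have hzB : zc B ≤ 2 * G.edgeSet.ncard := by
    have h1 : (zc B : ℝ) = b ^ 2 * zc P := by rw [hB, zc_blowup]; push_cast; rfl
    have h2 : (zc B : ℝ) ≤ 2 * M ^ 2 := by
      rw [h1]
      calc (b : ℝ) ^ 2 * zc P ≤ ((1 - θ) * N / t) ^ 2 * ((t : ℝ) ^ 2 * (zc G₁ / N ^ 2 + γ)) := by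
            apply mul_le_mul _ hf2 (by positivity) (by positivity)
            exact pow_le_pow_left₀ (by positivity) hbup 2
        _ = (1 - θ) ^ 2 * (zc G₁ + γ * N ^ 2) := by field_simp
        _ ≤ (1 - θ) ^ 2 * (2 * M ^ 2 + γ * (2 / η * M) ^ 2) := by
            apply mul_le_mul_of_nonneg_left _ (by positivity)
            have : N ^ 2 ≤ (2 / η * M) ^ 2 := pow_le_pow_left₀ hN0 hNup 2
            exact add_le_add hzG₁ (mul_le_mul_of_nonneg_left this hγ0.le)
        _ = (1 - θ) ^ 2 * (1 + 2 * θ) * (2 * M ^ 2) := by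
            rw [hγ]; field_simp
        _ ≤ 1 * (2 * M ^ 2) := by
            apply mul_le_mul_of_nonneg_right _ (by positivity)
            have h3 := mul_nonneg (mul_nonneg hθ0.le hθ0.le) (show 0 ≤ 3 - 2 * θ by linarith)
            linarith only [h3]
        _ = 2 * M ^ 2 := one_mul _
    rw [hMsq] at h2
    exact_mod_cast h2
  have hB0 : hc B (r + 1) = 0 := by rw [hB, hc_blowup, hf1, mul_zero]
  obtain ⟨n', G', h1, h2, h3⟩ := exists_padded B G.edgeSet.ncard r s (by omega) hzB hB0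
  have h4 := hyp' n' G' h1 h2
  have h5 : (hc B s : ℝ) ≤ hc G' s := by exact_mod_cast h3
  -- lower bound for hc B s
  obtain ⟨ρ, hρ⟩ : ∃ ρ : ℝ, ρ = (hc G₁ s : ℝ) / N ^ s := ⟨_, rfl⟩
  have hNspos : 0 < N ^ s := by positivity
  have hρ0 : 0 ≤ ρ := by rw [hρ]; positivity
  have hρ1 : ρ ≤ 1 := by rw [hρ, div_le_one hNspos]; exact hG₁up
  have hρN : ρ * N ^ s = hc G₁ s := by rw [hρ]; field_simp
  have htspos : (0 : ℝ) < (t : ℝ) ^ s := by positivity
  have hdesc : (t : ℝ) ^ s * (1 - s ^ 2 / t) ≤ (t.descFactorial s : ℝ) := by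
    have e1 : (((t + 1 - s) ^ s : ℕ) : ℝ) ≤ (t.descFactorial s : ℝ) := by
      exact_mod_cast Nat.pow_sub_le_descFactorial t s
    refine le_trans ?_ e1
    have e2 : (((t + 1 - s) ^ s : ℕ) : ℝ) = ((t : ℝ) + 1 - s) ^ s := by
      rw [Nat.cast_pow, Nat.cast_sub (by omega)]
      push_cast
      rfl
    rw [e2]
    have e3 : ((t : ℝ) + 1 - s) = t * (1 + (-((s - 1) / t))) := by field_simp; ring
    rw [e3, mul_pow]
    apply mul_le_mul_of_nonneg_left _ htspos.le
    have e4 : (-2 : ℝ) ≤ -((s - 1) / t) := by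
      have : ((s : ℝ) - 1) / t ≤ 1 := by rw [div_le_one ht0]; linarith
      linarith
    refine le_trans ?_ (one_add_mul_le_pow e4 s)
    have e5 : (s : ℝ) * ((s - 1) / t) ≤ s ^ 2 / t := by
      rw [← mul_div_assoc]
      apply div_le_div_of_nonneg_right _ ht0.le
      linarith only [hs0]
    linarith only [e5]
  have hPs : (t : ℝ) ^ s * (ρ - s ^ 2 / t - ξ) ≤ hc P s := by
    refine le_trans ?_ hf3
    rw [← hρ]
    exact aux10 _ _ _ _ _ hdesc hρ0 hρ1 htspos.le (by positivity)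
  have hBs : (hc B s : ℝ) = (b : ℝ) ^ s * hc P s := by rw [hB, hc_blowup]; push_cast; rfl
  obtain ⟨κ, hκ⟩ : ∃ κ : ℝ, κ = ρ - s ^ 2 / t - ξ := ⟨_, rfl⟩
  rw [← hκ] at hPs
  have hκ1 : κ ≤ 1 := by
    have : (0 : ℝ) ≤ s ^ 2 / t := by positivity
    rw [hκ]; linarith
  obtain ⟨u, hu⟩ : ∃ u : ℝ, u = t / N := ⟨_, rfl⟩
  have hu0 : 0 < u := by rw [hu]; positivity
  have hKu : K * s * u ≤ ε / 16 := by
    have e1 : 16 * K * s * t / ε ≤ N := by
      refine le_trans ?_ hNlow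
      have : 32 * K * s * t / ε ^ 2 * (ε / 2) ≤ M * (ε / 2) :=
        mul_le_mul_of_nonneg_right hMbig.le (by positivity)
      calc 16 * K * s * t / ε = 32 * K * s * t / ε ^ 2 * (ε / 2) := by field_simp; ring
        _ ≤ M * (ε / 2) := this
        _ = ε / 2 * M := by ring
    rw [div_le_iff₀ hε] at e1
    rw [hu, ← mul_div_assoc, div_le_iff₀ hNpos]
    linarith only [e1]
  have hu1 : u ≤ 1 / 8 := by
    have e1 : 1 * 3 ≤ K * s := mul_le_mul hK1 hs0 (by norm_num) hK0.le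
    have e2 := mul_le_mul_of_nonneg_right e1 hu0.le
    linarith only [e2, hKu, hε1]
  have hkey : N ^ s * (κ - s * (θ + u)) ≤ hc B s := by
    have hx : (0 : ℝ) ≤ s * (θ + u) := by positivity
    by_cases hκ0 : 0 ≤ κ
    · have e1 : N * (1 + (-(θ + u))) ≤ b * t := by
        have : N * u = t := by rw [hu]; field_simp
        linarith only [this, hblow]
      have e2 : 0 ≤ N * (1 + (-(θ + u))) := mul_nonneg hNpos.le (by linarith)
      have e3 : (N * (1 + (-(θ + u)))) ^ s ≤ (b * t) ^ s := pow_le_pow_left₀ e2 e1 s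
      have e4 : (1 : ℝ) + s * (-(θ + u)) ≤ (1 + (-(θ + u))) ^ s :=
        one_add_mul_le_pow (by linarith) s
      have e5 : N ^ s * (1 + s * (-(θ + u))) ≤ (b * t) ^ s := by
        refine le_trans ?_ e3
        rw [mul_pow]
        exact mul_le_mul_of_nonneg_left e4 hNspos.le
      have e6 : (hc B s : ℝ) ≥ (b * t) ^ s * κ := by
        rw [hBs, mul_pow]
        have : (b : ℝ) ^ s * ((t : ℝ) ^ s * κ) ≤ (b : ℝ) ^ s * hc P s :=
          mul_le_mul_of_nonneg_left hPs (by positivity)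
        linarith
      have e7 : N ^ s * (1 + s * (-(θ + u))) * κ ≤ (b * t) ^ s * κ :=
        mul_le_mul_of_nonneg_right e5 hκ0
      have e8 : κ - s * (θ + u) ≤ (1 + s * (-(θ + u))) * κ := by
        have := mul_le_mul_of_nonneg_left hκ1 hx
        linarith only [this]
      have e9 : N ^ s * (κ - s * (θ + u)) ≤ N ^ s * ((1 + s * (-(θ + u))) * κ) :=
        mul_le_mul_of_nonneg_left e8 hNspos.le
      linarith
    · push Not at hκ0
      have e1 : N ^ s * (κ - s * (θ + u)) ≤ 0 :=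
        mul_nonpos_of_nonneg_of_nonpos hNspos.le (by linarith)
      have e2 : (0 : ℝ) ≤ hc B s := by positivity
      linarith
  have hfin : (hc G₁ s : ℝ) - 3 / 8 * ε * M ^ s ≤ hc B s := by
    refine le_trans ?_ hkey
    rw [hκ]
    have e1 : N ^ s * (ρ - s ^ 2 / t - ξ - s * (θ + u)) =
        hc G₁ s - N ^ s * (s ^ 2 / t + ξ + s * θ + s * u) := by
      rw [← hρN]; ring
    rw [e1]
    have e2 : N ^ s * (s ^ 2 / t + ξ + s * θ + s * u) ≤
        K * M ^ s * (s ^ 2 / t + ξ + s * θ + s * u) :=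
      mul_le_mul_of_nonneg_right hNs (by positivity)
    have e3 : K * M ^ s * (s ^ 2 / t + ξ + s * θ + s * u) =
        (K * (s ^ 2 / t) + K * ξ + K * s * θ + K * s * u) * M ^ s := by ring
    have e4 : (K * (s ^ 2 / t) + K * ξ + K * s * θ + K * s * u) * M ^ s ≤
        3 / 8 * ε * M ^ s := by
      apply mul_le_mul_of_nonneg_right _ hMs.le
      linarith
    linarith
  have hX : 0 < ε * M ^ s := by positivity
  have a1 := mul_le_mul_of_nonneg_right hsfac hX.le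
  have a2 := mul_le_mul_of_nonneg_right hs0 hX.le
  linarith only [h4, h5, hfin, hlowc, hX, a1, a2]

/-- **Supersaturation for clique counts with a fixed number of edges.** For all `r ≥ s ≥ 3` and
`ε > 0` there are `δ > 0` and `m₀` such that every graph `G` with `m ≥ m₀` edges whose number of
`K_s` is at least `ε m^(s/2)` more than the number of `K_s` of every `K_{r+1}`-free graph with
exactly `m` edges contains at least `δ m^((r+1)/2)` copies of `K_{r+1}`. -/
theorem result (r s : ℕ) (hs : 3 ≤ s) (hsr : s ≤ r) (ε : ℝ) (hε : 0 < ε) :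
    ∃ δ : ℝ, 0 < δ ∧ ∃ m₀ : ℕ, ∀ m : ℕ, m₀ ≤ m → ∀ (n : ℕ) (G : SimpleGraph (Fin n)),
      G.edgeSet.ncard = m →
      (∀ (n' : ℕ) (G' : SimpleGraph (Fin n')), G'.edgeSet.ncard = m → G'.CliqueFree (r + 1) →
        ({S : Finset (Fin n') | G'.IsNClique s S}.ncard : ℝ) + ε * (m : ℝ) ^ ((s : ℝ) / 2) ≤
          ({S : Finset (Fin n) | G.IsNClique s S}.ncard : ℝ)) →
      δ * (m : ℝ) ^ (((r : ℝ) + 1) / 2) ≤
        ({S : Finset (Fin n) | G.IsNClique (r + 1) S}.ncard : ℝ) := by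
  obtain ⟨δ, hδ, m₀, hmain⟩ := core r s hs hsr (min ε 1) (lt_min hε one_pos) (min_le_right _ _)
  refine ⟨δ, hδ, m₀, ?_⟩
  rintro m hm n G rfl hyp
  have e1 : (G.edgeSet.ncard : ℝ) ^ (((r : ℝ) + 1) / 2) = √(G.edgeSet.ncard : ℝ) ^ (r + 1) := by
    rw [Real.rpow_div_two_eq_sqrt _ (by positivity), ← Real.rpow_natCast]
    push_cast
    rfl
  have e2 : (G.edgeSet.ncard : ℝ) ^ ((s : ℝ) / 2) = √(G.edgeSet.ncard : ℝ) ^ s := by
    rw [Real.rpow_div_two_eq_sqrt _ (by positivity), ← Real.rpow_natCast]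
  rw [e1]
  apply hmain n G hm
  intro n' G' h1 h2
  have h3 := hyp n' G' h1 h2
  rw [e2] at h3
  have h4 : min ε 1 * √(G.edgeSet.ncard : ℝ) ^ s ≤ ε * √(G.edgeSet.ncard : ℝ) ^ s :=
    mul_le_mul_of_nonneg_right (min_le_left _ _) (by positivity)
  linarith

end Pool.Agent.Results.MP_79ff05_co.CliqueSupersat
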